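import Pool.Agent.H738R2.Ellipse

set_option autoImplicit false

/-! Climbing orbits of the lifted map. -/

namespace Pool.Agent.H738R2.Cyl

open Set

/-- sub-interval on which a continuous function runs exactly over `[A, B]` -/
lemma exists_subinterval_aux (h : ℝ → ℝ) (hc : Continuous h) {x y A B : ℝ} (hxy : x ≤ y)
    (hA : h x ≤ A) (hAB : A ≤ B) (hB : B ≤ h y) :
    ∃ x' ∈ Icc x y, ∃ y' ∈ Icc x y, x' ≤ y' ∧ h x' = A ∧ h y' = B ∧
      ∀ z ∈ Icc x' y', h z ∈ Icc A B := by
  -- first point where h = B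
  set S₁ : Set ℝ := {z | z ∈ Icc x y ∧ B ≤ h z} with hS₁
  have hS₁c : IsCompact S₁ := by
    apply IsCompact.of_isClosed_subset isCompact_Icc
    · exact isClosed_Icc.inter (isClosed_le continuous_const hc)
    · intro z hz; exact hz.1
  have hS₁n : S₁.Nonempty := ⟨y, ⟨⟨hxy, le_rfl⟩, hB⟩⟩
  obtain ⟨y', hy', hmin⟩ := hS₁c.exists_isLeast hS₁n
  have hlt : ∀ z ∈ Icc x y', z ≠ y' → h z < B := by
    intro z hz hne
    by_contra hcon
    push Not at hcon
    have : z ∈ S₁ := ⟨⟨hz.1, hz.2.trans hy'.1.2⟩, hcon⟩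
    exact hne (le_antisymm hz.2 (hmin this))
  have hy'B : h y' = B := by
    apply le_antisymm _ hy'.2
    by_contra hcon
    push Not at hcon
    have hBmem : B ∈ Icc (h x) (h y') := ⟨hA.trans hAB, hcon.le⟩
    obtain ⟨z, hz, hzB⟩ := intermediate_value_Icc hy'.1.1 hc.continuousOn hBmem
    have hne : z ≠ y' := by rintro rfl; linarith
    have := hlt z hz hne
    linarith
  -- last point before y' where h ≤ A
  set S₂ : Set ℝ := {z | z ∈ Icc x y' ∧ h z ≤ A} with hS₂
  have hS₂c : IsCompact S₂ := by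
    apply IsCompact.of_isClosed_subset isCompact_Icc
    · exact isClosed_Icc.inter (isClosed_le hc continuous_const)
    · intro z hz; exact hz.1
  have hS₂n : S₂.Nonempty := ⟨x, ⟨⟨le_rfl, hy'.1.1⟩, hA⟩⟩
  obtain ⟨x', hx', hmax⟩ := hS₂c.exists_isGreatest hS₂n
  have hgt : ∀ z ∈ Icc x' y', z ≠ x' → A < h z := by
    intro z hz hne
    by_contra hcon
    push Not at hcon
    have : z ∈ S₂ := ⟨⟨hx'.1.1.trans hz.1, hz.2⟩, hcon⟩
    exact hne (le_antisymm (hmax this) hz.1)
  have hx'A : h x' = A := by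
    apply le_antisymm hx'.2
    by_contra hcon
    push Not at hcon
    have hAmem : A ∈ Icc (h x') (h y') := ⟨hcon.le, by rw [hy'B]; exact hAB⟩
    obtain ⟨z, hz, hzA⟩ := intermediate_value_Icc hx'.1.2 hc.continuousOn hAmem
    have hne : z ≠ x' := by rintro rfl; linarith
    have := hgt z hz hne
    linarith
  refine ⟨x', ⟨hx'.1.1, hx'.1.2.trans hy'.1.2⟩, y', hy'.1, hx'.1.2, hx'A, hy'B, ?_⟩
  intro z hz
  constructor
  · by_cases hne : z = x'
    · rw [hne, hx'A]
    · exact (hgt z hz hne).le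
  · by_cases hne : z = y'
    · rw [hne, hy'B]
    · exact (hlt z ⟨hx'.1.1.trans hz.1, hz.2⟩ hne).le

lemma exists_subinterval (h : ℝ → ℝ) (hc : Continuous h) {x y A B : ℝ}
    (hA : h x ≤ A) (hAB : A ≤ B) (hB : B ≤ h y) :
    ∃ x' ∈ uIcc x y, ∃ y' ∈ uIcc x y, h x' = A ∧ h y' = B ∧
      ∀ z ∈ uIcc x' y', h z ∈ Icc A B := by
  rcases le_total x y with hxy | hxy
  · obtain ⟨x', hx', y', hy', hle, h1, h2, h3⟩ := exists_subinterval_aux h hc hxy hA hAB hB
    refine ⟨x', ?_, y', ?_, h1, h2, ?_⟩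
    · rw [uIcc_of_le hxy]; exact hx'
    · rw [uIcc_of_le hxy]; exact hy'
    · rw [uIcc_of_le hle]; exact h3
  · obtain ⟨x', hx', y', hy', hle, h1, h2, h3⟩ :=
      exists_subinterval_aux (fun z => h (-z)) (hc.comp continuous_neg) (x := -x) (y := -y)
        (by linarith) (by simpa using hA) hAB (by simpa using hB)
    refine ⟨-x', ?_, -y', ?_, h1, h2, ?_⟩
    · rw [uIcc_of_ge hxy]; constructor <;> linarith [hx'.1, hx'.2]
    · rw [uIcc_of_ge hxy]; constructor <;> linarith [hy'.1, hy'.2]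
    · intro z hz
      have hle' : -y' ≤ -x' := by linarith
      rw [uIcc_of_ge hle'] at hz
      have := h3 (-z) ⟨by linarith [hz.2], by linarith [hz.1]⟩
      simpa using this

/-- height of the cylinder used in the counterexample -/
noncomputable def dd : ℝ := 4 * len

lemma dd_pos : 0 < dd := by
  have := len_pos
  unfold dd; positivity

/-- the lift of the map `T` to the universal cover, in the coordinates `(s, cot α)` -/
noncomputable def Tl (p : ℝ × ℝ) : ℝ × ℝ :=
  (S (τ p.1 + 2 * del (τ p.1) p.2) + dd * un (τ p.1) p.2, un (τ p.1) p.2)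

lemma del_comp_continuous : Continuous (fun p : ℝ × ℝ => del (τ p.1) p.2) := by
  have h1 : Continuous (fun p : ℝ × ℝ => ((τ p.1, p.2) : ℝ × ℝ)) :=
    (τ_continuous.comp continuous_fst).prodMk continuous_snd
  exact Continuous.comp (g := fun p : ℝ × ℝ => del p.1 p.2)
    (f := fun p : ℝ × ℝ => ((τ p.1, p.2) : ℝ × ℝ)) del_continuous h1

lemma τ_fst_continuous : Continuous (fun p : ℝ × ℝ => τ p.1) :=
  τ_continuous.comp continuous_fst

lemma un_comp_continuous : Continuous (fun p : ℝ × ℝ => un (τ p.1) p.2) :=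
  continuous_snd.add (continuous_const.mul (Real.continuous_sin.comp
    (continuous_const.mul (τ_fst_continuous.add del_comp_continuous))))

lemma Tl_continuous : Continuous Tl :=
  ((S_continuous.comp (τ_fst_continuous.add (continuous_const.mul del_comp_continuous))).add
    (continuous_const.mul un_comp_continuous)).prodMk un_comp_continuous

lemma un_le (t u : ℝ) : un t u ≤ u + 3 / 2 := by
  unfold un
  have := Real.sin_le_one (2 * (t + del t u))
  linarith

/-- the induction hypothesis: on the parameter interval between `a` and `b` the path `f` winds at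
least once around the cylinder and stays in a thin strip -/
def Wind (f : ℝ → ℝ × ℝ) (a b U : ℝ) : Prop :=
  len ≤ |(f a).1 - (f b).1| ∧ ∀ x ∈ uIcc a b, (f x).2 ∈ Icc U (U + 3 / 4)

lemma wind_step (f : ℝ → ℝ × ℝ) (hf : Continuous f) (a b U : ℝ) (h : Wind f a b U) :
    ∃ a' ∈ uIcc a b, ∃ b' ∈ uIcc a b, Wind (Tl ∘ f) a' b' (U + 3 / 4) := by
  have hlen := len_pos
  have hpi := Real.pi_pos
  obtain ⟨h1, h2⟩ := h
  have hg : Continuous (fun x => (f x).1) := by fun_prop
  -- restrict to exactly one turn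
  obtain ⟨a₁, ha₁, b₁, hb₁, A, hA, hB, hAB⟩ : ∃ a₁ ∈ uIcc a b, ∃ b₁ ∈ uIcc a b, ∃ A,
      (f a₁).1 = A ∧ (f b₁).1 = A + len ∧ ∀ x ∈ uIcc a₁ b₁, (f x).1 ∈ Icc A (A + len) := by
    rcases le_total (f a).1 (f b).1 with hle | hle
    · rw [abs_sub_comm, abs_of_nonneg (by linarith)] at h1
      obtain ⟨x', hx', y', hy', e1, e2, e3⟩ := exists_subinterval (fun x => (f x).1) hg
        (x := a) (y := b) (A := (f a).1) (B := (f a).1 + len) le_rfl (by linarith) (by linarith)
      exact ⟨x', hx', y', hy', _, e1, e2, e3⟩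
    · rw [abs_of_nonneg (by linarith)] at h1
      obtain ⟨x', hx', y', hy', e1, e2, e3⟩ := exists_subinterval (fun x => (f x).1) hg
        (x := b) (y := a) (A := (f b).1) (B := (f b).1 + len) le_rfl (by linarith) (by linarith)
      rw [uIcc_comm] at hx' hy'
      exact ⟨x', hx', y', hy', _, e1, e2, e3⟩
  have hsub : uIcc a₁ b₁ ⊆ uIcc a b := uIcc_subset_uIcc ha₁ hb₁
  have hτAB : τ (A + len) = τ A + 2 * Real.pi := τ_add A
  have hτ : ∀ x ∈ uIcc a₁ b₁, τ (f x).1 ∈ Icc (τ A) (τ A + 2 * Real.pi) := by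
    intro x hx
    have := hAB x hx
    rw [← hτAB]
    exact ⟨τ_strictMono.monotone this.1, τ_strictMono.monotone this.2⟩
  -- the mid parameter
  set m : ℝ → ℝ := fun x => τ (f x).1 + del (τ (f x).1) (f x).2 with hm
  have hmc : Continuous m := by
    have e2 : Continuous (fun x => del (τ (f x).1) (f x).2) := del_comp_continuous.comp hf
    exact (τ_fst_continuous.comp hf).add e2
  have hma : m a₁ ≤ τ A + Real.pi := by
    have := (del_mem (τ (f a₁).1) (f a₁).2).2
    simp only [hm]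
    rw [hA] at this ⊢
    linarith
  have hmb : τ A + 2 * Real.pi ≤ m b₁ := by
    have := (del_mem (τ (f b₁).1) (f b₁).2).1
    simp only [hm]
    rw [hB, hτAB] at this ⊢
    linarith
  have hmim : ∀ y ∈ Icc (τ A + Real.pi) (τ A + 2 * Real.pi), ∃ x ∈ uIcc a₁ b₁, m x = y := by
    intro y hy
    have : y ∈ uIcc (m a₁) (m b₁) := by
      rw [mem_uIcc]; left; exact ⟨by linarith [hy.1], by linarith [hy.2]⟩
    obtain ⟨x, hx, hxy⟩ := intermediate_value_uIcc hmc.continuousOn this
    exact ⟨x, hx, hxy⟩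
  -- an angle of the form `c + n π` in every interval of length `π`
  have hgrid : ∀ c₀ : ℝ, ∃ n : ℤ, c₀ + n * Real.pi ∈ Icc (τ A + Real.pi) (τ A + 2 * Real.pi) := by
    intro c₀
    refine ⟨⌈(τ A + Real.pi - c₀) / Real.pi⌉, ?_, ?_⟩
    · have := Int.le_ceil ((τ A + Real.pi - c₀) / Real.pi)
      rw [div_le_iff₀ hpi] at this
      linarith
    · have := Int.ceil_lt_add_one ((τ A + Real.pi - c₀) / Real.pi)
      have h2 := mul_lt_mul_of_pos_right this hpi
      have h3 : ((τ A + Real.pi - c₀) / Real.pi + 1) * Real.pi = τ A + 2 * Real.pi - c₀ := by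
        field_simp; ring
      linarith
  obtain ⟨n, hn⟩ := hgrid (Real.pi / 4)
  obtain ⟨n', hn'⟩ := hgrid (-(Real.pi / 4))
  obtain ⟨xp, hxp, hmp⟩ := hmim _ hn
  obtain ⟨xm, hxm, hmm⟩ := hmim _ hn'
  -- second coordinate of the image
  set k : ℝ → ℝ := fun x => un (τ (f x).1) (f x).2 with hk
  have hkc : Continuous k := un_comp_continuous.comp hf
  have hkm : ∀ x, k x = (f x).2 + 3 / 2 * Real.sin (2 * m x) := fun x => rfl
  have hkp : U + 3 / 4 + 3 / 4 ≤ k xp := by
    rw [hkm, hmp]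
    have : Real.sin (2 * (Real.pi / 4 + n * Real.pi)) = 1 := by
      have e : 2 * (Real.pi / 4 + n * Real.pi) = Real.pi / 2 + n * (2 * Real.pi) := by ring
      rw [e, Real.sin_add_int_mul_two_pi, Real.sin_pi_div_two]
    rw [this]
    have := (h2 xp (hsub hxp)).1
    linarith
  have hkm' : k xm ≤ U + 3 / 4 := by
    rw [hkm, hmm]
    have : Real.sin (2 * (-(Real.pi / 4) + n' * Real.pi)) = -1 := by
      have e : 2 * (-(Real.pi / 4) + n' * Real.pi) = -(Real.pi / 2) + n' * (2 * Real.pi) := by ring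
      rw [e, Real.sin_add_int_mul_two_pi, Real.sin_neg, Real.sin_pi_div_two]
    rw [this]
    have := (h2 xm (hsub hxm)).2
    linarith
  obtain ⟨a₂, ha₂, b₂, hb₂, e1, e2, e3⟩ := exists_subinterval k hkc hkm' (by linarith) hkp
  have hsub2 : uIcc xm xp ⊆ uIcc a₁ b₁ := uIcc_subset_uIcc hxm hxp
  refine ⟨a₂, hsub (hsub2 ha₂), b₂, hsub (hsub2 hb₂), ?_, ?_⟩
  · -- horizontal extent
    have hS : ∀ x ∈ uIcc a₁ b₁, S (τ (f x).1 + 2 * del (τ (f x).1) (f x).2)
        ∈ Ioo A (A + 2 * len) := by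
      intro x hx
      have h3 := hτ x hx
      have h4 := del_mem (τ (f x).1) (f x).2
      constructor
      · have := S_strictMono (show τ A < τ (f x).1 + 2 * del (τ (f x).1) (f x).2 by
          linarith [h3.1, h4.1])
        rwa [S_τ] at this
      · have := S_strictMono (show τ (f x).1 + 2 * del (τ (f x).1) (f x).2
          < (τ A + 2 * Real.pi) + 2 * Real.pi by linarith [h3.2, h4.2])
        rw [S_add, S_add, S_τ] at this
        linarith
    have ha := hS a₂ (hsub2 ha₂)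
    have hb := hS b₂ (hsub2 hb₂)
    have e1' : un (τ (f a₂).1) (f a₂).2 = U + 3 / 4 := e1
    have e2' : un (τ (f b₂).1) (f b₂).2 = U + 3 / 4 + 3 / 4 := e2
    simp only [Function.comp_apply, Tl]
    rw [e1', e2', abs_sub_comm]
    refine le_trans ?_ (le_abs_self _)
    unfold dd
    nlinarith [ha.1, ha.2, hb.1, hb.2]
  · intro x hx
    exact e3 x hx

lemma wind_iterate (n : ℕ) : ∀ (f : ℝ → ℝ × ℝ) (_ : Continuous f) (a b U : ℝ) (_ : Wind f a b U),
    ∃ x ∈ uIcc a b, U + n * (3 / 4) ≤ (Tl^[n] (f x)).2 := by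
  induction n with
  | zero =>
    intro f hf a b U h
    exact ⟨a, left_mem_uIcc, by simpa using (h.2 a left_mem_uIcc).1⟩
  | succ n ih =>
    intro f hf a b U h
    obtain ⟨a', ha', b', hb', h'⟩ := wind_step f hf a b U h
    obtain ⟨x, hx, hxn⟩ := ih (Tl ∘ f) (Tl_continuous.comp hf) a' b' _ h'
    refine ⟨x, uIcc_subset_uIcc ha' hb' hx, ?_⟩
    rw [Function.iterate_succ_apply]
    have : U + ((n + 1 : ℕ) : ℝ) * (3 / 4) = U + 3 / 4 + n * (3 / 4) := by push_cast; ring
    rw [this]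
    exact hxn

/-- there are orbits from any height to above any height -/
lemma exists_climb (U V : ℝ) : ∃ (s : ℝ) (n : ℕ), V < (Tl^[n] (s, U)).2 := by
  obtain ⟨n, hn⟩ := exists_nat_gt ((V - U) / (3 / 4))
  rw [div_lt_iff₀ (by norm_num)] at hn
  have hw : Wind (fun x => (x, U)) 0 len U := by
    constructor
    · simp only [zero_sub, abs_neg]
      exact le_abs_self _
    · intro x _
      exact ⟨le_rfl, by norm_num⟩
  obtain ⟨x, -, hx⟩ := wind_iterate n (fun x => (x, U)) (by fun_prop) 0 len U hw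
  exact ⟨x, n, by linarith⟩

end Pool.Agent.H738R2.Cyl
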