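import Mathlib

set_option autoImplicit false

/-! Crossing lemma: a closed curve going once (or a nonzero number of times) around a cylinder and a
path from below it to above it must meet (stated in the universal cover). -/

namespace Pool.Agent.H738R2

open Complex Set

/-- a continuous function on which `sin` never vanishes changes by less than `π`. -/
lemma abs_sub_lt_pi_of_sin_ne (f : ℝ → ℝ) (hf : Continuous f) (a b : ℝ)
    (h : ∀ t ∈ uIcc a b, Real.sin (f t) ≠ 0) : |f a - f b| < Real.pi := by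
  by_contra hcon
  push Not at hcon
  -- the image of uIcc a b contains uIcc (f a) (f b)
  have himg : uIcc (f a) (f b) ⊆ f '' uIcc a b := intermediate_value_uIcc hf.continuousOn
  -- a multiple of π
  set lo := min (f a) (f b) with hlo
  set hi := max (f a) (f b) with hhi
  have hlen : Real.pi ≤ hi - lo := by
    rw [hlo, hhi, max_sub_min_eq_abs, abs_sub_comm]; exact hcon
  have hpi := Real.pi_pos
  obtain ⟨n, hn⟩ : ∃ n : ℤ, (n : ℝ) * Real.pi ∈ Icc lo hi := by
    refine ⟨⌈lo / Real.pi⌉, ?_, ?_⟩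
    · have := Int.le_ceil (lo / Real.pi)
      rw [div_le_iff₀ hpi] at this
      exact this
    · have := Int.ceil_lt_add_one (lo / Real.pi)
      have h2 : ((⌈lo / Real.pi⌉ : ℤ) : ℝ) * Real.pi < (lo / Real.pi + 1) * Real.pi :=
        mul_lt_mul_of_pos_right this hpi
      have h3 : (lo / Real.pi + 1) * Real.pi = lo + Real.pi := by
        field_simp
      linarith
  have hmem : (n : ℝ) * Real.pi ∈ uIcc (f a) (f b) := by
    rw [uIcc]; exact hn
  obtain ⟨t, ht, hft⟩ := himg hmem
  exact h t ht (by rw [hft]; exact Real.sin_int_mul_pi n)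

lemma abs_sub_lt_pi_of_cos_ne (f : ℝ → ℝ) (hf : Continuous f) (a b : ℝ)
    (h : ∀ t ∈ uIcc a b, Real.cos (f t) ≠ 0) : |f a - f b| < Real.pi := by
  have := abs_sub_lt_pi_of_sin_ne (fun t => f t + Real.pi / 2) (by fun_prop) a b
    (fun t ht => by rw [Real.sin_add_pi_div_two]; exact h t ht)
  simpa using this

lemma exists_mod (θ : ℝ) : ∃ j : ℤ, -Real.pi < θ - 2 * Real.pi * j ∧ θ - 2 * Real.pi * j ≤ Real.pi := by
  refine ⟨⌈(θ - Real.pi) / (2 * Real.pi)⌉, ?_, ?_⟩
  · have hpi := Real.pi_pos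
    have := Int.ceil_lt_add_one ((θ - Real.pi) / (2 * Real.pi))
    have h2 : ((⌈(θ - Real.pi) / (2 * Real.pi)⌉ : ℤ) : ℝ) * (2 * Real.pi)
        < ((θ - Real.pi) / (2 * Real.pi) + 1) * (2 * Real.pi) :=
      mul_lt_mul_of_pos_right this (by positivity)
    have h3 : ((θ - Real.pi) / (2 * Real.pi) + 1) * (2 * Real.pi) = θ + Real.pi := by
      field_simp; ring
    nlinarith
  · have hpi := Real.pi_pos
    have := Int.le_ceil ((θ - Real.pi) / (2 * Real.pi))
    rw [div_le_iff₀ (by positivity)] at this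
    nlinarith

/-- quadrant description of a real angle -/
lemma quadrant (θ : ℝ) : ∃ (j : ℤ) (r : ℝ), θ = 2 * Real.pi * j + r ∧ -Real.pi < r ∧ r ≤ Real.pi ∧
    (0 < Real.sin θ → 0 < r ∧ r < Real.pi) ∧ (Real.sin θ < 0 → r < 0) ∧
    (0 < Real.cos θ → -(Real.pi / 2) < r ∧ r < Real.pi / 2) ∧
    (Real.cos θ < 0 → r < -(Real.pi / 2) ∨ Real.pi / 2 < r) := by
  obtain ⟨j, h1, h2⟩ := exists_mod θ
  set r := θ - 2 * Real.pi * j with hr
  have hθ : θ = r + j * (2 * Real.pi) := by rw [hr]; ring
  have hs : Real.sin θ = Real.sin r := by rw [hθ]; exact Real.sin_add_int_mul_two_pi r j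
  have hc : Real.cos θ = Real.cos r := by rw [hθ]; exact Real.cos_add_int_mul_two_pi r j
  have hpi := Real.pi_pos
  refine ⟨j, r, by rw [hr]; ring, h1, h2, ?_, ?_, ?_, ?_⟩
  · intro h
    rw [hs] at h
    constructor
    · by_contra hcon
      push Not at hcon
      have := Real.sin_nonpos_of_nonpos_of_neg_pi_le hcon h1.le
      linarith
    · rcases h2.lt_or_eq with h3 | h3
      · exact h3
      · rw [h3, Real.sin_pi] at h; exact absurd h (lt_irrefl _)
  · intro h
    rw [hs] at h
    by_contra hcon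
    push Not at hcon
    have := Real.sin_nonneg_of_nonneg_of_le_pi hcon h2
    linarith
  · intro h
    rw [hc] at h
    constructor
    · by_contra hcon
      push Not at hcon
      have : Real.cos (-r) ≤ 0 :=
        Real.cos_nonpos_of_pi_div_two_le_of_le (by linarith) (by linarith)
      rw [Real.cos_neg] at this
      linarith
    · by_contra hcon
      push Not at hcon
      have : Real.cos r ≤ 0 :=
        Real.cos_nonpos_of_pi_div_two_le_of_le (by linarith) (by linarith)
      linarith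
  · intro h
    rw [hc] at h
    by_contra hcon
    push Not at hcon
    have := Real.cos_nonneg_of_mem_Icc (x := r) ⟨by linarith [hcon.1], by linarith [hcon.2]⟩
    linarith

lemma int_eq_zero_of_abs {q : ℤ} (h : |2 * Real.pi * (q : ℝ)| < 2 * Real.pi) : q = 0 := by
  have hpi := Real.pi_pos
  rw [abs_mul, abs_of_pos (by positivity : (0:ℝ) < 2 * Real.pi)] at h
  have h2 : |(q : ℝ)| < 1 := by
    by_contra hcon
    push Not at hcon
    nlinarith
  have h3 : |q| < 1 := by exact_mod_cast h2
  exact Int.abs_lt_one_iff.mp h3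

lemma crossing_pos (c b : ℝ → ℂ) (hc : Continuous c) (hb : Continuous b) (κ : ℝ) (hκ : 0 < κ)
    (hper : ∀ x, c (x + 1) = c x + κ) (h0 : ∀ x, (b 0).im < (c x).im)
    (h1 : ∀ x, (c x).im < (b 1).im) : ∃ x, ∃ y ∈ Icc (0:ℝ) 1, c x = b y := by
  by_contra hcon
  push Not at hcon
  -- clamp b
  set b' : ℝ → ℂ := fun y => b (max 0 (min 1 y)) with hb'
  have hb'c : Continuous b' := by
    apply hb.comp; fun_prop
  have hclamp : ∀ y, max 0 (min 1 y) ∈ Icc (0:ℝ) 1 := by
    intro y
    refine ⟨le_max_left _ _, max_le (by norm_num) (min_le_left _ _)⟩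
  have hne : ∀ x y, c x - b' y ≠ 0 := by
    intro x y h
    exact hcon x _ (hclamp y) (sub_eq_zero.mp h)
  -- continuous logarithm
  obtain ⟨Λ, hΛc, hΛ⟩ := Complex.exists_continuousOn_eqOn_exp_comp (X := ℝ × ℝ) (U := univ)
    (g := fun p => c p.1 - b' p.2)
    (by
      have : SimplyConnectedSpace (univ : Set (ℝ × ℝ)) := by
        have : ContractibleSpace (univ : Set (ℝ × ℝ)) :=
          (convex_univ : Convex ℝ (univ : Set (ℝ × ℝ))).contractibleSpace ⟨(0,0), trivial⟩
        infer_instance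
      exact this)
    isOpen_univ (by fun_prop) (by
      rintro ⟨p, -, hp⟩
      exact hne _ _ hp)
  have hΛ' : ∀ x y, exp (Λ (x, y)) = c x - b' y := fun x y => hΛ (mem_univ (x, y))
  have hΛcont : Continuous Λ := by
    rw [← continuousOn_univ]; exact hΛc
  set θ : ℝ × ℝ → ℝ := fun p => (Λ p).im with hθ
  have hθc : Continuous θ := by
    rw [hθ]; fun_prop
  have hre : ∀ x y, (c x - b' y).re = Real.exp (Λ (x,y)).re * Real.cos (θ (x,y)) := by
    intro x y
    rw [← hΛ' x y, Complex.exp_re]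
  have him : ∀ x y, (c x - b' y).im = Real.exp (Λ (x,y)).re * Real.sin (θ (x,y)) := by
    intro x y
    rw [← hΛ' x y, Complex.exp_im]
  have hsinpos : ∀ x y, 0 < (c x - b' y).im → 0 < Real.sin (θ (x,y)) := by
    intro x y h
    rw [him] at h
    exact pos_of_mul_pos_right h (Real.exp_pos _).le
  have hsinneg : ∀ x y, (c x - b' y).im < 0 → Real.sin (θ (x,y)) < 0 := by
    intro x y h
    rw [him] at h
    by_contra hh
    push Not at hh
    have := mul_nonneg (Real.exp_pos (Λ (x,y)).re).le hh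
    linarith
  have hcospos : ∀ x y, 0 < (c x - b' y).re → 0 < Real.cos (θ (x,y)) := by
    intro x y h
    rw [hre] at h
    exact pos_of_mul_pos_right h (Real.exp_pos _).le
  have hcosneg : ∀ x y, (c x - b' y).re < 0 → Real.cos (θ (x,y)) < 0 := by
    intro x y h
    rw [hre] at h
    by_contra hh
    push Not at hh
    have := mul_nonneg (Real.exp_pos (Λ (x,y)).re).le hh
    linarith
  -- large N
  have hperN : ∀ n : ℕ, c n = c 0 + n * κ := by
    intro n
    induction n with
    | zero => simp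
    | succ n ih => push_cast; rw [hper, ih]; ring
  have hperN' : ∀ n : ℕ, c (-n) = c 0 - n * κ := by
    intro n
    induction n with
    | zero => simp
    | succ n ih =>
      have := hper (-((n:ℝ)+1))
      have h2 : (-((n:ℝ)+1)) + 1 = -n := by ring
      rw [h2, ih] at this
      push_cast
      rw [eq_sub_of_add_eq this.symm]
      ring
  obtain ⟨M, hM⟩ : ∃ M : ℝ, ∀ y, |(b' y).re| ≤ M := by
    have hcomp : IsCompact (Icc (0:ℝ) 1) := isCompact_Icc
    obtain ⟨M, hM⟩ := hcomp.exists_bound_of_continuousOn (f := fun y => b y) hb.continuousOn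
    exact ⟨M, fun y => (Complex.abs_re_le_norm _).trans (hM _ (hclamp y))⟩
  obtain ⟨N, hN⟩ : ∃ N : ℕ, M + |(c 0).re| < N * κ := by
    obtain ⟨N, hN⟩ := exists_nat_gt ((M + |(c 0).re|) / κ)
    exact ⟨N, by rwa [div_lt_iff₀ hκ] at hN⟩
  have hR : ∀ y, 0 < (c N - b' y).re := by
    intro y
    rw [hperN N]
    have h1 := hM y
    have h2 := neg_abs_le (c 0).re
    have h3 := le_abs_self (b' y).re
    simp only [Complex.sub_re, Complex.add_re, Complex.mul_re, Complex.natCast_re,
      Complex.ofReal_re, Complex.natCast_im, Complex.ofReal_im, mul_zero, sub_zero]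
    linarith
  have hLft : ∀ y, (c (-N) - b' y).re < 0 := by
    intro y
    rw [hperN' N]
    have h1 := hM y
    have h2 := le_abs_self (c 0).re
    have h3 := neg_abs_le (b' y).re
    simp only [Complex.sub_re, Complex.mul_re, Complex.natCast_re,
      Complex.ofReal_re, Complex.natCast_im, Complex.ofReal_im, mul_zero, sub_zero]
    linarith
  have hb0 : b' 0 = b 0 := by rw [hb']; norm_num
  have hb1 : b' 1 = b 1 := by rw [hb']; norm_num
  have hBot : ∀ x, 0 < (c x - b' 0).im := by
    intro x; rw [hb0, Complex.sub_im]; linarith [h0 x]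
  have hTop : ∀ x, (c x - b' 1).im < 0 := by
    intro x; rw [hb1, Complex.sub_im]; linarith [h1 x]
  -- four edges
  have eBot : |θ (-N, 0) - θ (N, 0)| < Real.pi :=
    abs_sub_lt_pi_of_sin_ne (fun x => θ (x, 0)) (by fun_prop) _ _
      (fun t _ => (hsinpos _ _ (hBot t)).ne')
  have eTop : |θ (-N, 1) - θ (N, 1)| < Real.pi :=
    abs_sub_lt_pi_of_sin_ne (fun x => θ (x, 1)) (by fun_prop) _ _
      (fun t _ => (hsinneg _ _ (hTop t)).ne)
  have eR : |θ (N, 0) - θ (N, 1)| < Real.pi :=
    abs_sub_lt_pi_of_cos_ne (fun y => θ (N, y)) (by fun_prop) _ _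
      (fun t _ => (hcospos _ _ (hR t)).ne')
  have eL : |θ (-N, 0) - θ (-N, 1)| < Real.pi :=
    abs_sub_lt_pi_of_cos_ne (fun y => θ (-N, y)) (by fun_prop) _ _
      (fun t _ => (hcosneg _ _ (hLft t)).ne)
  obtain ⟨jA, rA, hA, a1, a2, a3, a4, a5, a6⟩ := quadrant (θ (-N, 0))
  obtain ⟨jB, rB, hB, b1, b2, b3, b4, b5, b6⟩ := quadrant (θ (N, 0))
  obtain ⟨jC, rC, hC, c1, c2, c3, c4, c5, c6⟩ := quadrant (θ (N, 1))
  obtain ⟨jE, rE, hE, e1, e2, e3, e4, e5, e6⟩ := quadrant (θ (-N, 1))
  have A1 := a3 (hsinpos _ _ (hBot _))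
  have A2 := a6 (hcosneg _ _ (hLft _))
  have B1 := b3 (hsinpos _ _ (hBot _))
  have B2 := b5 (hcospos _ _ (hR _))
  have C1 := c4 (hsinneg _ _ (hTop _))
  have C2 := c5 (hcospos _ _ (hR _))
  have E1 := e4 (hsinneg _ _ (hTop _))
  have E2 := e6 (hcosneg _ _ (hLft _))
  have hpi := Real.pi_pos
  have A2' : Real.pi / 2 < rA := by
    rcases A2 with h | h
    · linarith [A1.1]
    · exact h
  have E2' : rE < -(Real.pi / 2) := by
    rcases E2 with h | h
    · exact h
    · linarith
  rw [hA, hB, abs_lt] at eBot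
  rw [hE, hC, abs_lt] at eTop
  rw [hB, hC, abs_lt] at eR
  rw [hA, hE, abs_lt] at eL
  have q1 : jA - jB = 0 := by
    apply int_eq_zero_of_abs
    push_cast
    rw [abs_lt]
    constructor <;> nlinarith [A1.1, A1.2, B1.1, B1.2]
  have q2 : jB - jC = 0 := by
    apply int_eq_zero_of_abs
    push_cast
    rw [abs_lt]
    constructor <;> nlinarith [B1.1, B1.2, C2.1, C2.2, B2.1, B2.2]
  have q3 : jE - jC = 0 := by
    apply int_eq_zero_of_abs
    push_cast
    rw [abs_lt]
    constructor <;> nlinarith [C2.1, C2.2]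
  have q4 : jA = jE := by omega
  rw [q4] at eL
  linarith [eL.1, eL.2]

/-- **Crossing lemma.** -/
lemma crossing (c b : ℝ → ℂ) (hc : Continuous c) (hb : Continuous b) (κ : ℝ) (hκ : κ ≠ 0)
    (hper : ∀ x, c (x + 1) = c x + κ) (h0 : ∀ x, (b 0).im < (c x).im)
    (h1 : ∀ x, (c x).im < (b 1).im) : ∃ x, ∃ y ∈ Icc (0:ℝ) 1, c x = b y := by
  rcases hκ.lt_or_gt with h | h
  · obtain ⟨x, y, hy, hxy⟩ := crossing_pos (fun x => c (-x)) b (by fun_prop) hb (-κ) (by linarith)
      (by
        intro x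
        have := hper (-(x+1))
        have h2 : -(x + 1) + 1 = -x := by ring
        rw [h2] at this
        rw [this]
        push_cast
        ring) (fun x => h0 _) (fun x => h1 _)
    exact ⟨-x, y, hy, hxy⟩
  · exact crossing_pos c b hc hb κ h hper h0 h1

end Pool.Agent.H738R2
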