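import Mathlib

set_option autoImplicit false

/-!
# Definitions for problem MP_5d0005_an

The geodesic flow on the flat surface obtained by gluing two copies of a convex plane domain to the
two ends of the flat cylinder `γ × [0, d]`, reduced to the map `T = T₂ ∘ T₁` of the phase cylinder.
-/

namespace Pool.Agent.H738R2.Cyl

open Complex

/-- `γ` is the arc length parametrisation (counterclockwise, period `L`) of a `C^∞` simple closed
curve of length `L` in the plane `ℂ = ℝ²` which is strictly convex: every point of the curve other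
than `γ s` lies strictly to the left of the oriented tangent line at `γ s`. -/
structure StrictlyConvexCurve (γ : ℝ → ℂ) (L : ℝ) : Prop where
  length_pos : 0 < L
  smooth : ContDiff ℝ (⊤ : ℕ∞) γ
  periodic : Function.Periodic γ L
  unit_speed : ∀ s, ‖deriv γ s‖ = 1
  simple : Set.InjOn γ (Set.Ico 0 L)
  strictly_convex : ∀ s s', γ s' ≠ γ s →
    0 < ((starRingEnd ℂ) (deriv γ s) * (γ s' - γ s)).im

/-- The phase cylinder `A = {(s, α)} = ℝ/Lℤ × (0, π)`. -/
abbrev PhaseCylinder (L : ℝ) : Type := AddCircle L × Set.Ioo (0 : ℝ) Real.pi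

/-- The chord leaving `γ s` at angle `α` (from the tangent direction `γ' s` towards the interior)
meets `γ` at the point `γ s₁`, where it makes the angle `α₁` with the tangent direction `γ' s₁`
(so that the ray arriving at `γ s₁` has direction `exp (-i α₁) γ' s₁`). -/
def Chord (γ : ℝ → ℂ) (s α s₁ α₁ : ℝ) : Prop :=
  ∃ ℓ : ℝ, 0 < ℓ ∧ γ s₁ = γ s + ℓ * (exp (α * I) * deriv γ s) ∧
    exp (α * I) * deriv γ s = exp (-(α₁ * I)) * deriv γ s₁

/-- `T₁` is the billiard map `(s, α) ↦ (s₁, α₁)` of the curve `γ` on the phase cylinder. -/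
def IsBilliardMap (γ : ℝ → ℂ) (L : ℝ) (T₁ : PhaseCylinder L → PhaseCylinder L) : Prop :=
  ∀ z : PhaseCylinder L, ∃ s s₁ : ℝ, (s : AddCircle L) = z.1 ∧ (s₁ : AddCircle L) = (T₁ z).1 ∧
    Chord γ s z.2 s₁ (T₁ z).2

/-- The map `T₂ (s, α) = (s + d cot α, α)`: crossing the flat cylinder of height `d`. -/
noncomputable def cylinderMap (L d : ℝ) (z : PhaseCylinder L) : PhaseCylinder L :=
  (z.1 + ((d * Real.cot (z.2 : ℝ) : ℝ) : AddCircle L), z.2)

/-- `Γ` is a rotational invariant curve of `T`: a simple closed curve in the phase cylinder which is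
not contractible in it and satisfies `T(Γ) = Γ`. -/
def IsRotationalInvariantCurve {L : ℝ} (T : PhaseCylinder L → PhaseCylinder L)
    (Γ : Set (PhaseCylinder L)) : Prop :=
  ∃ c : C(AddCircle (1 : ℝ), PhaseCylinder L), Function.Injective c ∧ ¬ c.Nullhomotopic ∧
    Set.range c = Γ ∧ T '' Γ = Γ

/-- Part (a) of the question: for every `C^∞` strictly convex closed curve and every `d > 0` the map
`T = T₂ ∘ T₁` has a rotational invariant curve. -/
def PartA : Prop :=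
  ∀ (γ : ℝ → ℂ) (L d : ℝ) (T₁ : PhaseCylinder L → PhaseCylinder L),
    StrictlyConvexCurve γ L → 0 < d → IsBilliardMap γ L T₁ →
    ∃ Γ, IsRotationalInvariantCurve (cylinderMap L d ∘ T₁) Γ

/-- Part (b) of the question: for every `C^∞` strictly convex closed curve and every `d > 0`, every
neighbourhood of `{α = 0}` and every neighbourhood of `{α = π}` contains a rotational invariant
curve of `T = T₂ ∘ T₁`. -/
def PartB : Prop :=
  ∀ (γ : ℝ → ℂ) (L d : ℝ) (T₁ : PhaseCylinder L → PhaseCylinder L),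
    StrictlyConvexCurve γ L → 0 < d → IsBilliardMap γ L T₁ →
    ∀ ε > (0 : ℝ),
      (∃ Γ, IsRotationalInvariantCurve (cylinderMap L d ∘ T₁) Γ ∧ ∀ z ∈ Γ, (z.2 : ℝ) < ε) ∧
      (∃ Γ, IsRotationalInvariantCurve (cylinderMap L d ∘ T₁) Γ ∧ ∀ z ∈ Γ, Real.pi - ε < (z.2 : ℝ))

/-! ### General facts: the billiard map is unique and injective -/

variable {γ : ℝ → ℂ} {L : ℝ}

lemma StrictlyConvexCurve.coe_eq (h : StrictlyConvexCurve γ L) {s s' : ℝ} (he : γ s = γ s') :
    (s : AddCircle L) = (s' : AddCircle L) := by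
  have hL := h.length_pos
  -- reduce both to `[0, L)`
  obtain ⟨m, hm, -⟩ := existsUnique_add_zsmul_mem_Ico hL s 0
  obtain ⟨n, hn, -⟩ := existsUnique_add_zsmul_mem_Ico hL s' 0
  have h1 : γ (s + m • L) = γ s := h.periodic.zsmul m s
  have h2 : γ (s' + n • L) = γ s' := h.periodic.zsmul n s'
  rw [zero_add] at hm hn
  have := h.simple hm hn (by rw [h1, h2, he])
  have h3 : ((s + m • L : ℝ) : AddCircle L) = ((s' + n • L : ℝ) : AddCircle L) := by rw [this]
  simpa using h3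

lemma StrictlyConvexCurve.eq_of_coe_eq (h : StrictlyConvexCurve γ L) {s s' : ℝ}
    (he : (s : AddCircle L) = (s' : AddCircle L)) : γ s = γ s' ∧ deriv γ s = deriv γ s' := by
  rw [← sub_eq_zero, ← AddCircle.coe_sub, AddCircle.coe_eq_zero_iff] at he
  obtain ⟨n, hn⟩ := he
  have hs : s = s' + n • L := by rw [hn]; ring
  constructor
  · rw [hs]; exact h.periodic.zsmul n s'
  · rw [hs]
    have hp : Function.Periodic (deriv γ) L := by
      intro x
      have h1 : deriv (fun y => γ (y + L)) x = deriv γ (x + L) := deriv_comp_add_const _ _ _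
      rw [← h1]
      congr 1
      funext y
      exact h.periodic y
    exact hp.zsmul n s'

/-- three points of the curve on a line: the middle one cannot be on the curve -/
lemma StrictlyConvexCurve.not_between (h : StrictlyConvexCurve γ L) {s : ℝ} {x y w : ℂ}
    (hx : x ∈ Set.range γ) (hy : y ∈ Set.range γ) {a b : ℝ} (ha : 0 < a) (hb : 0 < b)
    (hw : w ≠ 0) (h1 : x = γ s + a * w) (h2 : y = γ s - b * w) : False := by
  obtain ⟨s₁, rfl⟩ := hx
  obtain ⟨s₂, rfl⟩ := hy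
  have n1 : γ s₁ ≠ γ s := by
    intro he
    rw [he] at h1
    have : (a:ℂ) * w = 0 := by linear_combination -h1
    rcases mul_eq_zero.mp this with h3 | h3
    · exact ha.ne' (by exact_mod_cast h3)
    · exact hw h3
  have n2 : γ s₂ ≠ γ s := by
    intro he
    rw [he] at h2
    have : (b:ℂ) * w = 0 := by linear_combination h2
    rcases mul_eq_zero.mp this with h3 | h3
    · exact hb.ne' (by exact_mod_cast h3)
    · exact hw h3
  have k1 := h.strictly_convex s s₁ n1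
  have k2 := h.strictly_convex s s₂ n2
  have e1 : (starRingEnd ℂ) (deriv γ s) * (γ s₁ - γ s) = a * ((starRingEnd ℂ) (deriv γ s) * w) := by
    rw [h1]; ring
  have e2 : (starRingEnd ℂ) (deriv γ s) * (γ s₂ - γ s)
      = ((-b : ℝ) : ℂ) * ((starRingEnd ℂ) (deriv γ s) * w) := by
    rw [h2]; push_cast; ring
  rw [e1, Complex.im_ofReal_mul] at k1
  rw [e2, Complex.im_ofReal_mul] at k2
  have : 0 < ((starRingEnd ℂ) (deriv γ s) * w).im := pos_of_mul_pos_right k1 ha.le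
  nlinarith

lemma deriv_ne_zero_of (h : StrictlyConvexCurve γ L) (s : ℝ) : deriv γ s ≠ 0 := by
  intro h0
  have := h.unit_speed s
  rw [h0, norm_zero] at this
  exact zero_ne_one this

lemma exp_inj_of_mem {α β : ℝ} (hα : α ∈ Set.Ioo (0:ℝ) Real.pi) (hβ : β ∈ Set.Ioo (0:ℝ) Real.pi)
    (h : exp (α * I) = exp (β * I)) : α = β := by
  have hc : Real.cos α = Real.cos β := by
    have := congrArg Complex.re h
    simpa [Complex.exp_ofReal_mul_I_re] using this
  exact Real.injOn_cos ⟨hα.1.le, hα.2.le⟩ ⟨hβ.1.le, hβ.2.le⟩ hc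

lemma Chord.unique (h : StrictlyConvexCurve γ L) {s α s₁ α₁ s' s₂ α₂ : ℝ}
    (hs : (s : AddCircle L) = (s' : AddCircle L))
    (hα₁ : α₁ ∈ Set.Ioo (0:ℝ) Real.pi) (hα₂ : α₂ ∈ Set.Ioo (0:ℝ) Real.pi)
    (c₁ : Chord γ s α s₁ α₁) (c₂ : Chord γ s' α s₂ α₂) :
    (s₁ : AddCircle L) = (s₂ : AddCircle L) ∧ α₁ = α₂ := by
  obtain ⟨ℓ₁, hℓ₁, p₁, q₁⟩ := c₁
  obtain ⟨ℓ₂, hℓ₂, p₂, q₂⟩ := c₂
  obtain ⟨g1, g2⟩ := h.eq_of_coe_eq hs
  rw [← g1, ← g2] at p₂
  rw [← g2] at q₂
  set w := exp (α * I) * deriv γ s with hw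
  have hw0 : w ≠ 0 := mul_ne_zero (exp_ne_zero _) (deriv_ne_zero_of h s)
  have hℓ : ℓ₁ = ℓ₂ := by
    rcases lt_trichotomy ℓ₁ ℓ₂ with hlt | heq | hgt
    · exfalso
      refine h.not_between (s := s₁) (x := γ s₂) (y := γ s) ⟨s₂, rfl⟩ ⟨s, rfl⟩
        (a := ℓ₂ - ℓ₁) (b := ℓ₁) (by linarith) hℓ₁ hw0 ?_ ?_
      · rw [p₁, p₂]; push_cast; ring
      · rw [p₁]; ring
    · exact heq
    · exfalso
      refine h.not_between (s := s₂) (x := γ s₁) (y := γ s) ⟨s₁, rfl⟩ ⟨s, rfl⟩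
        (a := ℓ₁ - ℓ₂) (b := ℓ₂) (by linarith) hℓ₂ hw0 ?_ ?_
      · rw [p₁, p₂]; push_cast; ring
      · rw [p₂]; ring
  have hγ : γ s₁ = γ s₂ := by rw [p₁, p₂, hℓ]
  have hs12 := h.coe_eq hγ
  refine ⟨hs12, ?_⟩
  obtain ⟨-, g3⟩ := h.eq_of_coe_eq hs12
  rw [q₁, g3] at q₂
  have := mul_right_cancel₀ (deriv_ne_zero_of h s₂) q₂
  rw [Complex.exp_neg, Complex.exp_neg, inv_inj] at this
  exact exp_inj_of_mem hα₁ hα₂ this

lemma Chord.inj (h : StrictlyConvexCurve γ L) {s α s₁ α₁ s' α' s₁' : ℝ}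
    (hs : (s₁ : AddCircle L) = (s₁' : AddCircle L))
    (hα : α ∈ Set.Ioo (0:ℝ) Real.pi) (hα' : α' ∈ Set.Ioo (0:ℝ) Real.pi)
    (c₁ : Chord γ s α s₁ α₁) (c₂ : Chord γ s' α' s₁' α₁) :
    (s : AddCircle L) = (s' : AddCircle L) ∧ α = α' := by
  obtain ⟨ℓ₁, hℓ₁, p₁, q₁⟩ := c₁
  obtain ⟨ℓ₂, hℓ₂, p₂, q₂⟩ := c₂
  obtain ⟨g1, g2⟩ := h.eq_of_coe_eq hs
  rw [q₁] at p₁
  rw [q₂, ← g1, ← g2] at p₂
  rw [← g2] at q₂
  set w := exp (-(α₁ * I)) * deriv γ s₁ with hw
  have hw0 : w ≠ 0 := mul_ne_zero (exp_ne_zero _) (deriv_ne_zero_of h s₁)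
  have hℓ : ℓ₁ = ℓ₂ := by
    rcases lt_trichotomy ℓ₁ ℓ₂ with hlt | heq | hgt
    · exfalso
      refine h.not_between (s := s) (x := γ s₁) (y := γ s') ⟨s₁, rfl⟩ ⟨s', rfl⟩
        (a := ℓ₁) (b := ℓ₂ - ℓ₁) hℓ₁ (by linarith) hw0 p₁ ?_
      push_cast
      linear_combination p₁ - p₂
    · exact heq
    · exfalso
      refine h.not_between (s := s') (x := γ s₁) (y := γ s) ⟨s₁, rfl⟩ ⟨s, rfl⟩
        (a := ℓ₂) (b := ℓ₁ - ℓ₂) hℓ₂ (by linarith) hw0 p₂ ?_
      push_cast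
      linear_combination p₂ - p₁
  have hγ : γ s = γ s' := by
    rw [hℓ] at p₁
    linear_combination p₂ - p₁
  have hs12 := h.coe_eq hγ
  refine ⟨hs12, ?_⟩
  obtain ⟨-, g3⟩ := h.eq_of_coe_eq hs12
  have q3 : exp (α * I) * deriv γ s = exp (α' * I) * deriv γ s := by rw [q₁, g3, q₂]
  have := mul_right_cancel₀ (deriv_ne_zero_of h s) q3
  exact exp_inj_of_mem hα hα' this

lemma IsBilliardMap.eq_of_chord (h : StrictlyConvexCurve γ L)
    {T₁ : PhaseCylinder L → PhaseCylinder L} (hT : IsBilliardMap γ L T₁) {s s₁ : ℝ}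
    {α α₁ : Set.Ioo (0:ℝ) Real.pi} (hc : Chord γ s α s₁ α₁) :
    T₁ ((s : AddCircle L), α) = ((s₁ : AddCircle L), α₁) := by
  obtain ⟨s', s₁', e1, e2, hc'⟩ := hT ((s : AddCircle L), α)
  have := Chord.unique h e1.symm α₁.2 (T₁ ((s : AddCircle L), α)).2.2 hc hc'
  refine Prod.ext ?_ (Subtype.ext ?_)
  · rw [← e2]; exact this.1.symm
  · exact this.2.symm

lemma IsBilliardMap.injective (h : StrictlyConvexCurve γ L)
    {T₁ : PhaseCylinder L → PhaseCylinder L} (hT : IsBilliardMap γ L T₁) :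
    Function.Injective T₁ := by
  intro z z' he
  obtain ⟨s, s₁, e1, e2, hc⟩ := hT z
  obtain ⟨s', s₁', e1', e2', hc'⟩ := hT z'
  rw [← he] at e2' hc'
  have := Chord.inj h (e2.trans e2'.symm) z.2.2 z'.2.2 hc hc'
  refine Prod.ext ?_ (Subtype.ext this.2)
  rw [← e1, ← e1']; exact this.1

lemma cylinderMap_injective (L d : ℝ) : Function.Injective (cylinderMap L d) := by
  intro z z' he
  have h2 : (cylinderMap L d z).2 = (cylinderMap L d z').2 := by rw [he]
  have h1 : (cylinderMap L d z).1 = (cylinderMap L d z').1 := by rw [he]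
  change z.2 = z'.2 at h2
  simp only [cylinderMap, h2, add_left_inj] at h1
  exact Prod.ext h1 h2

end Pool.Agent.H738R2.Cyl
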