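import Mathlib

set_option autoImplicit false

/-!
# Definitions for problem MP_12cf7c_an

Viscosity sub- and supersolutions on the torus `𝕋ⁿ = ℝⁿ/ℤⁿ`. Functions on the torus are
`ℤⁿ`-periodic functions on `ℝⁿ`.
-/

namespace Pool.Agent.H738R2.HJ

/-- Euclidean space `ℝⁿ`. -/
abbrev E (n : ℕ) : Type := EuclideanSpace ℝ (Fin n)

/-- The lattice vector `k ∈ ℤⁿ ⊂ ℝⁿ`. -/
def latt {n : ℕ} (k : Fin n → ℤ) : E n := WithLp.toLp 2 fun i => (k i : ℝ)

/-- `u` is (the lift of) a function on the torus. -/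
def IsPeriodic {n : ℕ} (u : E n → ℝ) : Prop := ∀ (x : E n) (k : Fin n → ℤ), u (x + latt k) = u x

/-- A continuous function `H` on `𝕋ⁿ × ℝⁿ`, superlinear in `p` uniformly in `x`. -/
structure IsHamiltonian {n : ℕ} (H : E n → E n → ℝ) : Prop where
  continuous : Continuous fun z : E n × E n => H z.1 z.2
  periodic : ∀ p, IsPeriodic fun x => H x p
  superlinear : ∀ M : ℝ, ∃ R : ℝ, ∀ x p : E n, R ≤ ‖p‖ → M * ‖p‖ ≤ H x p

/-- `u` is a (global, continuous) viscosity subsolution of `H(x, Du(x)) = c` on `𝕋ⁿ`: whenever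
`u - φ`, with `φ` of class `C¹`, has a local maximum at `x₀`, one has `H(x₀, ∇φ(x₀)) ≤ c`. -/
def IsSubsolution {n : ℕ} (H : E n → E n → ℝ) (c : ℝ) (u : E n → ℝ) : Prop :=
  Continuous u ∧ IsPeriodic u ∧ ∀ (φ : E n → ℝ) (x₀ : E n), ContDiff ℝ 1 φ →
    IsLocalMax (fun y => u y - φ y) x₀ → H x₀ (gradient φ x₀) ≤ c

/-- `u` is a (global, continuous) viscosity supersolution of `H(x, Du(x)) = c` on `𝕋ⁿ`: whenever
`u - φ`, with `φ` of class `C¹`, has a local minimum at `x₀`, one has `c ≤ H(x₀, ∇φ(x₀))`. -/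
def IsSupersolution {n : ℕ} (H : E n → E n → ℝ) (c : ℝ) (u : E n → ℝ) : Prop :=
  Continuous u ∧ IsPeriodic u ∧ ∀ (φ : E n → ℝ) (x₀ : E n), ContDiff ℝ 1 φ →
    IsLocalMin (fun y => u y - φ y) x₀ → c ≤ H x₀ (gradient φ x₀)

/-- Viscosity solution of `H(x, Du(x)) = c` on the whole torus. -/
def IsSolution {n : ℕ} (H : E n → E n → ℝ) (c : ℝ) (u : E n → ℝ) : Prop :=
  IsSubsolution H c u ∧ IsSupersolution H c u

/-- The critical value `c₀`. -/
noncomputable def criticalValue {n : ℕ} (H : E n → E n → ℝ) : ℝ :=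
  sInf {c | ∃ u : E n → ℝ, IsSubsolution H c u}

/-- `S_x(y) = sup {u(y) - u(x) : u critical subsolution}`. -/
noncomputable def S {n : ℕ} (H : E n → E n → ℝ) (x y : E n) : ℝ :=
  sSup {r | ∃ u : E n → ℝ, IsSubsolution H (criticalValue H) u ∧ r = u y - u x}

/-! ### The counterexample `H(x, p) = (|p|² - 1)²` -/

/-- the Hamiltonian -/
noncomputable def HH (n : ℕ) (_ p : E n) : ℝ := (‖p‖ ^ 2 - 1) ^ 2

variable {n : ℕ}

lemma isHamiltonian_HH : IsHamiltonian (HH n) where
  continuous := by unfold HH; fun_prop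
  periodic := fun p x k => rfl
  superlinear := by
    intro M
    refine ⟨|M| + 3, fun x p hp => ?_⟩
    have h1 := abs_nonneg M
    have h2 := le_abs_self M
    set t := ‖p‖
    have ht : 3 ≤ t := by linarith
    have hM : M ≤ t := by linarith
    have h3 : t ≤ t ^ 2 - 1 := by nlinarith
    have h4 : t * t ≤ (t ^ 2 - 1) ^ 2 := by nlinarith
    have : M * t ≤ t * t := by nlinarith
    unfold HH
    linarith

lemma gradient_const_fun (c : ℝ) (x : E n) : gradient (fun _ : E n => c) x = 0 :=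
  gradient_fun_const x c

/-- a level below `1` has no subsolutions -/
lemma one_le_of_isSubsolution {c : ℝ} {u : E n → ℝ} (h : IsSubsolution (HH n) c u) : 1 ≤ c := by
  obtain ⟨hc, hp, hv⟩ := h
  -- a global maximum exists by periodicity
  obtain ⟨x₀, hx₀⟩ : ∃ x₀ : E n, ∀ y, u y ≤ u x₀ := by
    have hcomp : IsCompact (Metric.closedBall (0 : E n) (Real.sqrt n)) :=
      isCompact_closedBall _ _
    obtain ⟨x₀, -, hx₀⟩ := hcomp.exists_isMaxOn ⟨0, by simp⟩ hc.continuousOn
    refine ⟨x₀, fun y => ?_⟩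
    have hy : u (y + latt fun i => -⌊y i⌋) = u y := hp y _
    rw [← hy]
    apply hx₀
    rw [mem_closedBall_zero_iff, EuclideanSpace.norm_eq]
    apply Real.sqrt_le_sqrt
    have : ∀ i ∈ (Finset.univ : Finset (Fin n)), ‖(y + latt fun i => -⌊y i⌋) i‖ ^ 2 ≤ 1 := by
      intro i _
      have h1 : (y + latt fun i => -⌊y i⌋) i = Int.fract (y i) := by
        simp only [latt, PiLp.add_apply, Int.cast_neg, Int.fract]
        ring
      rw [h1, Real.norm_eq_abs, sq_abs]
      have h2 := Int.fract_nonneg (y i)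
      have h3 := (Int.fract_lt_one (y i)).le
      nlinarith
    calc ∑ i, ‖(y + latt fun i => -⌊y i⌋) i‖ ^ 2 ≤ ∑ i : Fin n, (1:ℝ) := Finset.sum_le_sum this
      _ = n := by simp
  have := hv (fun _ => 0) x₀ contDiff_const (by
    refine Filter.Eventually.of_forall fun y => ?_
    simpa using hx₀ y)
  rw [gradient_const_fun] at this
  simpa [HH] using this

lemma isSubsolution_of_C1 {u : E n → ℝ} (hu : ContDiff ℝ 1 u) (hp : IsPeriodic u)
    (hg : ∀ x, ‖gradient u x‖ ≤ 1) : IsSubsolution (HH n) 1 u := by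
  refine ⟨hu.continuous, hp, fun φ x₀ hφ hmax => ?_⟩
  have hd : HasFDerivAt (fun y => u y - φ y) (fderiv ℝ u x₀ - fderiv ℝ φ x₀) x₀ :=
    ((hu.differentiable one_ne_zero) x₀).hasFDerivAt.sub
      ((hφ.differentiable one_ne_zero) x₀).hasFDerivAt
  have h0 := hmax.hasFDerivAt_eq_zero hd
  have h1 : gradient φ x₀ = gradient u x₀ := by
    unfold gradient
    rw [sub_eq_zero.mp h0]
  rw [h1]
  have h2 := hg x₀
  have h3 := norm_nonneg (gradient u x₀)
  have h4 : ‖gradient u x₀‖ ^ 2 ≤ 1 := by nlinarith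
  have h5 : 0 ≤ ‖gradient u x₀‖ ^ 2 := sq_nonneg _
  unfold HH
  nlinarith [mul_nonneg h5 (sub_nonneg.mpr h4)]

lemma isGLB_HH : IsGLB {c | ∃ u : E n → ℝ, IsSubsolution (HH n) c u} (1 : ℝ) := by
  have hmem : (1:ℝ) ∈ {c | ∃ u : E n → ℝ, IsSubsolution (HH n) c u} :=
    ⟨fun _ => 0, isSubsolution_of_C1 contDiff_const (fun _ _ => rfl) (fun x => by
      rw [gradient_const_fun]; simp)⟩
  refine ⟨?_, fun b hb => hb hmem⟩
  rintro c ⟨u, hu⟩
  exact one_le_of_isSubsolution hu

lemma criticalValue_HH : criticalValue (HH n) = 1 := by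
  have hmem : (1:ℝ) ∈ {c | ∃ u : E n → ℝ, IsSubsolution (HH n) c u} :=
    ⟨fun _ => 0, isSubsolution_of_C1 contDiff_const (fun _ _ => rfl) (fun x => by
      rw [gradient_const_fun]; simp)⟩
  have hlb : ∀ c ∈ {c | ∃ u : E n → ℝ, IsSubsolution (HH n) c u}, (1:ℝ) ≤ c := by
    rintro c ⟨u, hu⟩
    exact one_le_of_isSubsolution hu
  exact le_antisymm (csInf_le ⟨1, hlb⟩ hmem) (le_csInf ⟨1, hmem⟩ hlb)

/-- Critical subsolutions satisfy `u(y) - u(x) ≤ 2 |y - x|`. -/
lemma lipschitz_of_isSubsolution {u : E n → ℝ} (h : IsSubsolution (HH n) 1 u) (x y : E n) :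
    u y - u x ≤ 2 * ‖y - x‖ := by
  obtain ⟨hc, hp, hv⟩ := h
  -- `u` is bounded
  obtain ⟨B, hB⟩ : ∃ B : ℝ, ∀ y, |u y| ≤ B := by
    have hcomp : IsCompact (Metric.closedBall (0 : E n) (Real.sqrt n)) :=
      isCompact_closedBall _ _
    obtain ⟨B, hB⟩ := hcomp.exists_bound_of_continuousOn hc.continuousOn
    refine ⟨B, fun y => ?_⟩
    have hy : u (y + latt fun i => -⌊y i⌋) = u y := hp y _
    rw [← hy, ← Real.norm_eq_abs]
    apply hB
    rw [mem_closedBall_zero_iff, EuclideanSpace.norm_eq]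
    apply Real.sqrt_le_sqrt
    have : ∀ i ∈ (Finset.univ : Finset (Fin n)), ‖(y + latt fun i => -⌊y i⌋) i‖ ^ 2 ≤ 1 := by
      intro i _
      have h1 : (y + latt fun i => -⌊y i⌋) i = Int.fract (y i) := by
        simp only [latt, PiLp.add_apply, Int.cast_neg, Int.fract]
        ring
      rw [h1, Real.norm_eq_abs, sq_abs]
      have h2 := Int.fract_nonneg (y i)
      have h3 := (Int.fract_lt_one (y i)).le
      nlinarith
    calc ∑ i, ‖(y + latt fun i => -⌊y i⌋) i‖ ^ 2 ≤ ∑ i : Fin n, (1:ℝ) := Finset.sum_le_sum this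
      _ = n := by simp
  -- for every `ε > 0` there is `z` with `|z - x| ≤ ε` and `u y ≤ u z + 2 √(ε² + |y - x|²)`
  have key : ∀ ε : ℝ, 0 < ε → ∃ z : E n, ‖z - x‖ ≤ ε ∧
      u y ≤ u z + 2 * Real.sqrt (ε ^ 2 + ‖y - x‖ ^ 2) := by
    intro ε hε
    set φ : E n → ℝ := fun z => 2 * Real.sqrt (ε ^ 2 + ‖z - x‖ ^ 2) with hφ
    have hpos : ∀ z : E n, 0 < ε ^ 2 + ‖z - x‖ ^ 2 := fun z => by positivity
    have hφc : Continuous φ := by
      rw [hφ]; fun_prop
    have hφ1 : ContDiff ℝ 1 φ := by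
      apply ContDiff.mul contDiff_const
      apply ContDiff.sqrt
      · exact contDiff_const.add ((contDiff_id.sub contDiff_const).norm_sq ℝ)
      · intro z; exact (hpos z).ne'
    have hgrad : ∀ z, HasGradientAt φ ((2 / Real.sqrt (ε ^ 2 + ‖z - x‖ ^ 2)) • (z - x)) z := by
      intro z
      have h1 : HasFDerivAt (fun z : E n => ‖z - x‖ ^ 2)
          (2 • (innerSL ℝ (z - x)).comp (ContinuousLinearMap.id ℝ (E n))) z := by
        have := (hasFDerivAt_id (𝕜 := ℝ) z).sub_const x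
        exact this.norm_sq
      have h2 : HasFDerivAt (fun z : E n => ε ^ 2 + ‖z - x‖ ^ 2)
          (2 • (innerSL ℝ (z - x)).comp (ContinuousLinearMap.id ℝ (E n))) z :=
        h1.const_add _
      have h3 := (h2.sqrt (hpos z).ne').const_mul 2
      rw [hasGradientAt_iff_hasFDerivAt]
      refine h3.congr_fderiv ?_
      ext w
      have hs0 : Real.sqrt (ε ^ 2 + ‖z - x‖ ^ 2) ≠ 0 := (Real.sqrt_pos.mpr (hpos z)).ne'
      have e1 : (InnerProductSpace.toDual ℝ (E n)) ((2 / Real.sqrt (ε ^ 2 + ‖z - x‖ ^ 2)) • (z - x)) w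
          = (2 / Real.sqrt (ε ^ 2 + ‖z - x‖ ^ 2)) * inner ℝ (z - x) w := by
        rw [InnerProductSpace.toDual_apply_apply, real_inner_smul_left]
      rw [e1]
      simp only [smul_apply, ContinuousLinearMap.comp_id, innerSL_apply_apply,
        smul_eq_mul, nsmul_eq_mul]
      field_simp
      norm_num
    -- maximum of `u - φ`
    obtain ⟨z, hz⟩ : ∃ z : E n, ∀ w, u w - φ w ≤ u z - φ z := by
      have hcont : Continuous (fun w => φ w - u w) := hφc.sub hc
      have htend : Filter.Tendsto (fun w => φ w - u w) (Filter.cocompact (E n)) Filter.atTop := by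
        have h1 : Filter.Tendsto (fun w : E n => ‖w‖) (Filter.cocompact (E n)) Filter.atTop :=
          tendsto_norm_cocompact_atTop
        have h2 : Filter.Tendsto (fun w : E n => ‖w‖ + (- ‖x‖ - B)) (Filter.cocompact (E n))
            Filter.atTop := Filter.tendsto_atTop_add_const_right _ _ h1
        refine Filter.tendsto_atTop_mono (fun w => ?_) h2
        have h3 : ‖w - x‖ ≤ Real.sqrt (ε ^ 2 + ‖w - x‖ ^ 2) := by
          apply Real.le_sqrt_of_sq_le
          nlinarith [sq_nonneg ε]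
        have h4 := (abs_le.mp (hB w)).2
        have h5 : ‖w‖ ≤ ‖w - x‖ + ‖x‖ := by
          have := norm_add_le (w - x) x
          simpa using this
        have h6 := norm_nonneg (w - x)
        simp only [hφ]
        linarith
      obtain ⟨z, hz⟩ := hcont.exists_forall_le htend
      exact ⟨z, fun w => by linarith [hz w]⟩
    have hH := hv φ z hφ1 (Filter.Eventually.of_forall hz)
    rw [(hgrad z).gradient] at hH
    -- deduce `‖z - x‖ ≤ ε`
    have hs := Real.sqrt_pos.mpr (hpos z)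
    have hs2 := Real.sq_sqrt (hpos z).le
    set s := Real.sqrt (ε ^ 2 + ‖z - x‖ ^ 2) with hsdef
    have hnorm : ‖(2 / s) • (z - x)‖ ^ 2 = 4 * ‖z - x‖ ^ 2 / s ^ 2 := by
      rw [norm_smul, Real.norm_of_nonneg (by positivity)]
      field_simp
      ring
    have hzx : ‖z - x‖ ≤ ε := by
      unfold HH at hH
      rw [hnorm] at hH
      have h7 : 4 * ‖z - x‖ ^ 2 / s ^ 2 ≤ 2 := by nlinarith
      rw [div_le_iff₀ (by positivity)] at h7
      nlinarith [norm_nonneg (z - x)]
    refine ⟨z, hzx, ?_⟩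
    have h8 := hz y
    have h9 : 0 ≤ φ z := by
      simp only [hφ]; positivity
    have h10 : φ y = 2 * Real.sqrt (ε ^ 2 + ‖y - x‖ ^ 2) := rfl
    linarith
  -- let `ε → 0`
  choose! z hz1 hz2 using key
  have hlim1 : Filter.Tendsto z (nhdsWithin 0 (Set.Ioi 0)) (nhds x) := by
    rw [tendsto_iff_norm_sub_tendsto_zero]
    refine squeeze_zero_norm' (a := fun ε : ℝ => ε) ?_ ?_
    · filter_upwards [self_mem_nhdsWithin] with ε hε
      rw [norm_norm]
      exact hz1 ε hε
    · exact tendsto_nhdsWithin_of_tendsto_nhds Filter.tendsto_id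
  have hlim2 : Filter.Tendsto (fun ε : ℝ => u (z ε) + 2 * Real.sqrt (ε ^ 2 + ‖y - x‖ ^ 2))
      (nhdsWithin 0 (Set.Ioi 0)) (nhds (u x + 2 * Real.sqrt ((0:ℝ) ^ 2 + ‖y - x‖ ^ 2))) := by
    apply Filter.Tendsto.add
    · exact (hc.tendsto x).comp hlim1
    · apply tendsto_nhdsWithin_of_tendsto_nhds
      exact (by fun_prop : Continuous fun ε : ℝ => 2 * Real.sqrt (ε ^ 2 + ‖y - x‖ ^ 2)).tendsto 0
  have hle : u y ≤ u x + 2 * Real.sqrt ((0:ℝ) ^ 2 + ‖y - x‖ ^ 2) := by
    refine ge_of_tendsto hlim2 ?_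
    filter_upwards [self_mem_nhdsWithin] with ε hε
    exact hz2 ε hε
  have : Real.sqrt ((0:ℝ) ^ 2 + ‖y - x‖ ^ 2) = ‖y - x‖ := by
    rw [zero_pow two_ne_zero, zero_add, Real.sqrt_sq (norm_nonneg _)]
  rw [this] at hle
  linarith

lemma isLUB_S (x y : E n) :
    IsLUB {r | ∃ u : E n → ℝ, IsSubsolution (HH n) (criticalValue (HH n)) u ∧ r = u y - u x}
      (S (HH n) x y) := by
  apply isLUB_csSup
  · refine ⟨0, fun _ => 0, ?_, by simp⟩
    rw [criticalValue_HH]
    exact isSubsolution_of_C1 contDiff_const (fun _ _ => rfl) (fun x => by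
      rw [gradient_const_fun]; simp)
  · refine ⟨2 * ‖y - x‖, ?_⟩
    rintro r ⟨u, hu, rfl⟩
    rw [criticalValue_HH] at hu
    exact lipschitz_of_isSubsolution hu x y

/-- the test function `sin (2π (y_i - x_i)) / (2π)` -/
noncomputable def tf (i : Fin n) (x y : E n) : ℝ :=
  Real.sin (2 * Real.pi * (y i - x i)) / (2 * Real.pi)

lemma tf_hasGradientAt (i : Fin n) (x y : E n) :
    HasGradientAt (tf i x) (Real.cos (2 * Real.pi * (y i - x i)) • EuclideanSpace.single i (1:ℝ))
      y := by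
  have h0 : HasFDerivAt (fun y : E n => y i) (EuclideanSpace.proj i : E n →L[ℝ] ℝ) y :=
    (EuclideanSpace.proj i : E n →L[ℝ] ℝ).hasFDerivAt
  have h1 := (((h0.sub_const (x i)).const_mul (2 * Real.pi)).sin).mul_const (2 * Real.pi)⁻¹
  rw [hasGradientAt_iff_hasFDerivAt]
  have h2 : HasFDerivAt (tf i x) _ y := h1
  refine h2.congr_fderiv ?_
  ext w
  have hpi := Real.pi_pos.ne'
  have e1 : (InnerProductSpace.toDual ℝ (E n)) (Real.cos (2 * Real.pi * (y i - x i)) •
      EuclideanSpace.single i (1:ℝ)) w = Real.cos (2 * Real.pi * (y i - x i)) * w i := by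
    rw [InnerProductSpace.toDual_apply_apply, real_inner_smul_left,
      EuclideanSpace.inner_single_left]
    simp
  rw [e1]
  simp only [smul_apply, smul_eq_mul]
  field_simp
  rfl

lemma tf_contDiff (i : Fin n) (x : E n) : ContDiff ℝ 1 (tf i x) := by
  unfold tf
  have h0 : ContDiff ℝ 1 (fun y : E n => y i) := (EuclideanSpace.proj i : E n →L[ℝ] ℝ).contDiff
  exact ((contDiff_const.mul (h0.sub contDiff_const)).sin).div_const _

lemma tf_periodic (i : Fin n) (x : E n) : IsPeriodic (tf i x) := by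
  intro y k
  unfold tf
  have : 2 * Real.pi * ((y + latt k) i - x i)
      = 2 * Real.pi * (y i - x i) + (k i) * (2 * Real.pi) := by
    simp only [latt, PiLp.add_apply]
    ring
  rw [this, Real.sin_add_int_mul_two_pi]

theorem main (hn : 1 ≤ n) (x : E n) :
    ¬ IsSolution (HH n) (criticalValue (HH n)) (S (HH n) x) := by
  rintro ⟨-, -, -, hsup⟩
  have i : Fin n := ⟨0, hn⟩
  have hsub : IsSubsolution (HH n) (criticalValue (HH n)) (tf i x) := by
    rw [criticalValue_HH]
    refine isSubsolution_of_C1 (tf_contDiff i x) (tf_periodic i x) fun y => ?_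
    rw [(tf_hasGradientAt i x y).gradient, norm_smul]
    simp only [PiLp.norm_single, norm_one, mul_one]
    exact Real.abs_cos_le_one _
  have hx0 : tf i x x = 0 := by simp [tf]
  have hle : ∀ y, tf i x y ≤ S (HH n) x y := by
    intro y
    apply (isLUB_S x y).1
    exact ⟨tf i x, hsub, by rw [hx0]; ring⟩
  have hS0 : S (HH n) x x = 0 := by
    apply (isLUB_S x x).unique
    constructor
    · rintro r ⟨u, -, rfl⟩; simp
    · intro b hb
      exact hb ⟨tf i x, hsub, by simp⟩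
  have := hsup (tf i x) x (tf_contDiff i x) (by
    refine Filter.Eventually.of_forall fun y => ?_
    simp only
    rw [hS0, hx0]
    linarith [hle y])
  rw [(tf_hasGradientAt i x x).gradient, criticalValue_HH] at this
  unfold HH at this
  simp at this
  linarith

end Pool.Agent.H738R2.HJ
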