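import Mathlib

set_option autoImplicit false

/-! Lifting a non-contractible closed curve on a cylinder to the universal cover. -/

namespace Pool.Agent.H738R2

open Set

lemma lift_closed_curve {L : ℝ} {Y : Type*} [TopologicalSpace Y] [ContractibleSpace Y]
    (c : C(AddCircle (1:ℝ), AddCircle L × Y)) (hc : ¬ c.Nullhomotopic) :
    ∃ (σ : ℝ → ℝ) (κ : ℝ), Continuous σ ∧ κ ≠ 0 ∧ (∀ x, σ (x+1) = σ x + κ) ∧
      (∀ x : ℝ, ((σ x : ℝ) : AddCircle L) = (c (x : AddCircle (1:ℝ))).1) := by
  have cov : IsCoveringMap ((↑) : ℝ → AddCircle L) := AddCircle.isCoveringMap_coe L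
  -- the first coordinate as a map on ℝ
  let f : C(ℝ, AddCircle L) := ⟨fun x => (c (x : AddCircle (1:ℝ))).1, by
    have : Continuous ((↑) : ℝ → AddCircle (1:ℝ)) := AddCircle.continuous_mk' 1
    fun_prop⟩
  obtain ⟨e₀, he₀⟩ : ∃ e₀ : ℝ, ((e₀ : ℝ) : AddCircle L) = f 0 := QuotientAddGroup.mk_surjective (f 0)
  obtain ⟨F, ⟨-, hF⟩, -⟩ := cov.existsUnique_continuousMap_lifts f 0 e₀ he₀
  have hF' : ∀ x, ((F x : ℝ) : AddCircle L) = f x := fun x => congrFun hF x
  -- the difference is constant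
  have hdiff : ∀ x, ∃ n : ℤ, F (x + 1) - F x = n * L := by
    intro x
    have h1 : ((F (x+1) : ℝ) : AddCircle L) = ((F x : ℝ) : AddCircle L) := by
      rw [hF', hF']
      change (c ((x + 1 : ℝ) : AddCircle (1:ℝ))).1 = (c ((x : ℝ) : AddCircle (1:ℝ))).1
      rw [AddCircle.coe_add_period]
    rw [← sub_eq_zero, ← AddCircle.coe_sub, AddCircle.coe_eq_zero_iff] at h1
    obtain ⟨n, hn⟩ := h1
    exact ⟨n, by rw [← hn]; simp⟩
  have hconst : ∀ x, F (x + 1) - F x = F (0 + 1) - F 0 := by
    -- continuous map whose image in `AddCircle L` is `0`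
    have h2 : ∀ x, (((fun x => F (x+1) - F x) x : ℝ) : AddCircle L) = ((0:ℝ) : AddCircle L) := by
      intro x
      obtain ⟨n, hn⟩ := hdiff x
      simp only [hn]
      rw [AddCircle.coe_zero, AddCircle.coe_eq_zero_iff]
      exact ⟨n, by simp⟩
    have h3 : Continuous (fun x => F (x+1) - F x) := by fun_prop
    intro x
    have := cov.const_of_comp h3 (fun a b => by rw [h2 a, h2 b]) x 0
    exact this
  set κ := F (0+1) - F 0 with hκ
  refine ⟨F, κ, F.continuous, ?_, fun x => by rw [← hconst x]; ring, hF'⟩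
  -- if κ = 0 then c is nullhomotopic
  intro hκ0
  apply hc
  have hper : Function.Periodic F 1 := by
    intro x
    have := hconst x
    rw [hκ0] at this
    linarith
  let σ : AddCircle (1:ℝ) → ℝ := hper.lift
  have hσ : Continuous σ := by
    apply continuous_coinduced_dom.mpr
    exact F.continuous
  have hσ2 : ∀ z, ((σ z : ℝ) : AddCircle L) = (c z).1 := by
    intro z
    obtain ⟨x, rfl⟩ := QuotientAddGroup.mk_surjective z
    exact hF' x
  let G : C(AddCircle (1:ℝ), ℝ × Y) := ⟨fun z => (σ z, (c z).2), by fun_prop⟩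
  let P : C(ℝ × Y, AddCircle L × Y) := ⟨fun p => ((p.1 : AddCircle L), p.2), by
    have : Continuous ((↑) : ℝ → AddCircle L) := AddCircle.continuous_mk' L
    fun_prop⟩
  have hcomp : c = P.comp G := by
    ext z
    · exact (hσ2 z).symm
    · rfl
  rw [hcomp]
  apply ContinuousMap.Nullhomotopic.comp_right
  have : G = (ContinuousMap.id _).comp G := by ext <;> rfl
  rw [this]
  exact (id_nullhomotopic _).comp_left G

end Pool.Agent.H738R2
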