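import Pool.Agent.H738R2.Climb
import Pool.Agent.H738R2.Cross
import Pool.Agent.H738R2.Lift

set_option autoImplicit false

/-! No rotational invariant curve for the ellipse `x²/4 + y² = 1` and the height `d = 4 L`. -/

namespace Pool.Agent.H738R2.Cyl

open Set

/-- projection from the universal cover (coordinates `(s, cot α)`) to the phase cylinder -/
noncomputable def pr (p : ℝ × ℝ) : PhaseCylinder len := ((p.1 : AddCircle len), ⟨acot p.2, acot_mem p.2⟩)

lemma pr_surjective : Function.Surjective pr := by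
  rintro ⟨z1, z2⟩
  obtain ⟨s, rfl⟩ := QuotientAddGroup.mk_surjective z1
  refine ⟨(s, Real.cot z2), ?_⟩
  refine Prod.ext rfl (Subtype.ext ?_)
  exact acot_cot z2.2

variable {T₁ : PhaseCylinder len → PhaseCylinder len}

lemma T_pr (hT : IsBilliardMap γ len T₁) (p : ℝ × ℝ) :
    (cylinderMap len dd ∘ T₁) (pr p) = pr (Tl p) := by
  have h := hT.eq_of_chord (α := ⟨acot p.2, acot_mem p.2⟩)
    (α₁ := ⟨acot (un (τ p.1) p.2), acot_mem _⟩) ellipse_strictlyConvex (ellipse_chord p.1 p.2)
  simp only [Function.comp_apply]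
  rw [pr, h, cylinderMap, pr, Tl]
  refine Prod.ext ?_ rfl
  simp only [cot_acot]
  rw [AddCircle.coe_add]

/-- the billiard map of the ellipse exists -/
lemma exists_T₁ : ∃ T₁ : PhaseCylinder len → PhaseCylinder len, IsBilliardMap γ len T₁ := by
  have : ∀ z : PhaseCylinder len, ∃ w : PhaseCylinder len, ∃ s s₁ : ℝ,
      (s : AddCircle len) = z.1 ∧ (s₁ : AddCircle len) = w.1 ∧ Chord γ s z.2 s₁ w.2 := by
    intro z
    obtain ⟨p, rfl⟩ := pr_surjective z
    exact ⟨(((S (τ p.1 + 2 * del (τ p.1) p.2) : ℝ) : AddCircle len),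
      ⟨acot (un (τ p.1) p.2), acot_mem _⟩), p.1, _, rfl, rfl, ellipse_chord p.1 p.2⟩
  choose T hT using this
  exact ⟨T, hT⟩

theorem no_curve (hT : IsBilliardMap γ len T₁) :
    ¬ ∃ Γ, IsRotationalInvariantCurve (cylinderMap len dd ∘ T₁) Γ := by
  rintro ⟨Γ, c, -, hnull, hrange, hinv⟩
  have hTinj : Function.Injective (cylinderMap len dd ∘ T₁) :=
    (cylinderMap_injective len dd).comp (hT.injective ellipse_strictlyConvex)
  haveI : ContractibleSpace (Ioo (0:ℝ) Real.pi) :=
    (convex_Ioo (0:ℝ) Real.pi).contractibleSpace ⟨Real.pi / 2, by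
      constructor <;> linarith [Real.pi_pos]⟩
  obtain ⟨σ, κ, hσc, hκ, hσper, hσ⟩ := lift_closed_curve c hnull
  -- continuity of the cotangent along the curve
  have hcotc : Continuous (fun z : AddCircle (1:ℝ) => Real.cot ((c z).2 : ℝ)) := by
    simp only [Real.cot_eq_cos_div_sin]
    apply Continuous.div
    · fun_prop
    · fun_prop
    · intro z
      exact (Real.sin_pos_of_mem_Ioo (c z).2.2).ne'
  obtain ⟨M, hM⟩ : ∃ M : ℝ, ∀ z : AddCircle (1:ℝ), |Real.cot ((c z).2 : ℝ)| < M := by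
    haveI : Fact ((0:ℝ) < 1) := ⟨one_pos⟩
    obtain ⟨M, hM⟩ := (isCompact_univ : IsCompact (univ : Set (AddCircle (1:ℝ)))
      ).exists_bound_of_continuousOn hcotc.continuousOn
    exact ⟨M + 1, fun z => lt_of_le_of_lt (hM z (mem_univ z)) (by linarith)⟩
  -- the curve in the universal cover
  have hcc : ∀ x : ℝ, pr (σ x, Real.cot ((c (x : AddCircle (1:ℝ))).2 : ℝ)) = c x := by
    intro x
    refine Prod.ext ?_ (Subtype.ext ?_)
    · exact hσ x
    · exact acot_cot (c x).2.2
  -- points of the cover not on the curve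
  set pre : Set (ℝ × ℝ) := {p | pr p ∉ Γ} with hpre
  have hlow : ∀ p : ℝ × ℝ, p.2 < -M → p ∈ pre := by
    intro p hp hmem
    rw [← hrange] at hmem
    obtain ⟨z, hz⟩ := hmem
    have h1 : ((c z).2 : ℝ) = acot p.2 := by rw [hz]; rfl
    have h2 := hM z
    rw [h1, cot_acot] at h2
    linarith [(abs_lt.mp h2).1]
  -- invariance of the complement
  have hTpre : ∀ p ∈ pre, Tl p ∈ pre := by
    intro p hp hmem
    rw [← T_pr hT p, ← hinv] at hmem
    obtain ⟨z, hz, hzz⟩ := hmem
    have := hTinj hzz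
    rw [this] at hz
    exact hp hz
  set D : Set (ℝ × ℝ) := {p | ∃ w : ℝ × ℝ, w.2 < -M ∧ JoinedIn pre w p} with hD
  have hTD : ∀ p ∈ D, Tl p ∈ D := by
    rintro p ⟨w, hw, hj⟩
    set w' : ℝ × ℝ := (w.1, w.2 - 3 / 2) with hw'
    have hconv : Convex ℝ {p : ℝ × ℝ | p.2 < -M} :=
      convex_halfSpace_lt (LinearMap.snd ℝ ℝ ℝ).isLinear (-M)
    have hseg : JoinedIn pre w' w := by
      apply JoinedIn.of_segment_subset
      intro y hy
      apply hlow
      have hm1 : w' ∈ {p : ℝ × ℝ | p.2 < -M} := by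
        simp only [hw', mem_setOf_eq]; linarith
      exact hconv.segment_subset hm1 hw hy
    have hj' := (hseg.trans hj).map Tl_continuous
    refine ⟨Tl w', ?_, hj'.mono ?_⟩
    · have := un_le (τ w'.1) w'.2
      simp only [Tl, hw'] at this ⊢
      linarith
    · rintro _ ⟨y, hy, rfl⟩
      exact hTpre y hy
  -- a climbing orbit
  obtain ⟨s, n, hn⟩ := exists_climb (-M - 1) M
  have h0 : ((s, -M - 1) : ℝ × ℝ) ∈ D := by
    refine ⟨(s, -M - 1), by simp only; linarith, JoinedIn.refl (hlow _ (by simp only; linarith))⟩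
  have hiter : ∀ k : ℕ, Tl^[k] (s, -M - 1) ∈ D := by
    intro k
    induction k with
    | zero => exact h0
    | succ k ih =>
      rw [Function.iterate_succ_apply']
      exact hTD _ ih
  obtain ⟨w, hw, ⟨β, hβ⟩⟩ := hiter n
  -- crossing lemma
  have hb : Continuous (fun y : ℝ => (⟨(β.extend y).1, (β.extend y).2⟩ : ℂ)) := by
    have h1 : Continuous (fun y : ℝ => ((β.extend y).1 : ℂ) + ((β.extend y).2 : ℂ) * Complex.I) := by
      have := β.continuous_extend
      fun_prop
    convert h1 using 2 with y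
    exact Complex.mk_eq_add_mul_I _ _
  have hcurve : Continuous (fun x : ℝ =>
      (⟨σ x, Real.cot ((c (x : AddCircle (1:ℝ))).2 : ℝ)⟩ : ℂ)) := by
    have h2 : Continuous (fun x : ℝ => Real.cot ((c (x : AddCircle (1:ℝ))).2 : ℝ)) :=
      hcotc.comp (AddCircle.continuous_mk' 1)
    have h1 : Continuous (fun x : ℝ => ((σ x : ℝ) : ℂ)
        + ((Real.cot ((c (x : AddCircle (1:ℝ))).2 : ℝ) : ℝ) : ℂ) * Complex.I) := by
      fun_prop
    convert h1 using 2 with y
    exact Complex.mk_eq_add_mul_I _ _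
  obtain ⟨x, y, hy, hxy⟩ := crossing _ _ hcurve hb κ hκ (by
      intro x
      apply Complex.ext
      · simp [hσper]
      · simp) (by
      intro x
      simp only [Path.extend_zero]
      have := (abs_lt.mp (hM (x : AddCircle (1:ℝ)))).1
      linarith) (by
      intro x
      simp only [Path.extend_one]
      have := (abs_lt.mp (hM (x : AddCircle (1:ℝ)))).2
      linarith)
  have e1 : σ x = (β.extend y).1 := congrArg Complex.re hxy
  have e2 : Real.cot ((c (x : AddCircle (1:ℝ))).2 : ℝ) = (β.extend y).2 := congrArg Complex.im hxy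
  have e3 : pr (β.extend y) = c x := by
    rw [← hcc x, e1, e2]
  have e4 : β.extend y ∈ pre := by
    have : β.extend y = β ⟨y, hy⟩ := Path.extend_apply β hy
    rw [this]
    exact hβ _
  apply e4
  rw [e3, ← hrange]
  exact mem_range_self _

theorem main : ¬ PartA ∧ ¬ PartB := by
  obtain ⟨T₁, hT⟩ := exists_T₁
  have hno := no_curve hT
  constructor
  · intro hA
    exact hno (hA γ len dd T₁ ellipse_strictlyConvex dd_pos hT)
  · intro hB
    obtain ⟨⟨Γ, hΓ, -⟩, -⟩ := hB γ len dd T₁ ellipse_strictlyConvex dd_pos hT 1 one_pos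
    exact hno ⟨Γ, hΓ⟩

end Pool.Agent.H738R2.Cyl
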